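import Pool.Agent.Q91.BX.StmSt

/-! # Stability of the Euler product for almost all polynomials -/

set_option autoImplicit false

namespace Pool.Agent.Q210.BX

open Finset Filter Topology
open Pool.Agent.Q91.BX.St

/-- partial sums over primes -/
noncomputable def W {j : ℕ} (c : Fin (j + 1) → ℤ) (a b : ℕ) : ℝ :=
  ∑ p ∈ (Ioc a b).filter Nat.Prime, ((rt c p : ℝ) - 1) / p

lemma sum_inv_sq {a b : ℕ} (ha : 1 ≤ a) :
    ∑ p ∈ (Ioc a b).filter Nat.Prime, ((p : ℝ) ^ 2)⁻¹ ≤ 1 / a := by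
  rcases le_total a b with h | h
  · calc ∑ p ∈ (Ioc a b).filter Nat.Prime, ((p : ℝ) ^ 2)⁻¹ ≤ ∑ p ∈ Ioc a b, ((p : ℝ) ^ 2)⁻¹ :=
          sum_le_sum_of_subset_of_nonneg (filter_subset _ _) fun _ _ _ => by positivity
      _ ≤ (a : ℝ)⁻¹ - (b : ℝ)⁻¹ := sum_Ioc_inv_sq_le_sub (by omega) h
      _ ≤ 1 / a := by
        have : 0 ≤ (b : ℝ)⁻¹ := by positivity
        rw [one_div]; linarith
  · rw [Ioc_eq_empty (by omega)]
    simp

lemma card_P {a b : ℕ} : (#((Ioc a b).filter Nat.Prime) : ℝ) ≤ b := by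
  have h1 : #((Ioc a b).filter Nat.Prime) ≤ b :=
    (card_filter_le _ _).trans (by rw [Nat.card_Ioc]; omega)
  exact_mod_cast h1

lemma second (h1 : S_COR) (h2 : S_SQ) {j : ℕ} (hj : 1 ≤ j) {H a b : ℕ} (hH : 1 ≤ H) (ha : 1 ≤ a)
    (hb : b ≤ H) :
    ∑ c ∈ box j H, W c a b ^ 2 ≤ (#(box j H) : ℝ) * (20 / a + 4 * (b : ℝ) ^ 2 / (2 * H + 1)) := by
  set P := (Ioc a b).filter Nat.Prime with hP
  set N : ℝ := (#(box j H) : ℝ) with hN
  have hN0 : 0 ≤ N := Nat.cast_nonneg _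
  have hH0 : (0 : ℝ) < 2 * H + 1 := by positivity
  have e1 : ∑ c ∈ box j H, W c a b ^ 2 =
      ∑ p ∈ P, ∑ q ∈ P, (∑ c ∈ box j H, ((rt c p : ℝ) - 1) * ((rt c q : ℝ) - 1)) / ((p : ℝ) * q) := by
    unfold W
    simp_rw [sq, Finset.sum_mul_sum]
    rw [Finset.sum_comm]
    refine Finset.sum_congr rfl fun p _ => ?_
    rw [Finset.sum_comm]
    refine Finset.sum_congr rfl fun q _ => ?_
    rw [Finset.sum_div]
    refine Finset.sum_congr rfl fun c _ => ?_
    rw [div_mul_div_comm]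
  rw [e1]
  have hPb : (#P : ℝ) ≤ b := card_P
  have hD : 0 ≤ 4 * N / (2 * H + 1) := by positivity
  have e2 : ∀ p ∈ P, ∑ q ∈ P, (∑ c ∈ box j H, ((rt c p : ℝ) - 1) * ((rt c q : ℝ) - 1)) / ((p : ℝ) * q) ≤
      20 * N * ((p : ℝ) ^ 2)⁻¹ + b * (4 * N / (2 * H + 1)) := by
    intro p hp
    have hpP := hp
    rw [hP, mem_filter, mem_Ioc] at hp
    have hp0 : (0 : ℝ) < p := by exact_mod_cast hp.2.pos
    rw [← Finset.add_sum_erase P _ hpP]
    refine add_le_add ?_ ?_
    · have h3 := h2 j hj H p hp.2 (hp.1.2.trans hb)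
      have h4 : ∑ c ∈ box j H, ((rt c p : ℝ) - 1) * ((rt c p : ℝ) - 1) ≤ 20 * N := by
        refine le_trans (le_of_eq ?_) h3
        exact Finset.sum_congr rfl fun c _ => by ring
      rw [← sq, div_eq_mul_inv]
      exact mul_le_mul_of_nonneg_right h4 (by positivity)
    · have hterm : ∀ q ∈ P.erase p,
          (∑ c ∈ box j H, ((rt c p : ℝ) - 1) * ((rt c q : ℝ) - 1)) / ((p : ℝ) * q) ≤ 4 * N / (2 * H + 1) := by
        intro q hq
        rw [mem_erase, hP, mem_filter, mem_Ioc] at hq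
        have hq0 : (0 : ℝ) < q := by exact_mod_cast hq.2.2.pos
        have h5 := (abs_le.1 (h1 j hj H p q hp.2 hq.2.2 (Ne.symm hq.1) hH)).2
        rw [div_le_iff₀ (by positivity)]
        refine h5.trans (le_of_eq ?_)
        push_cast
        ring
      refine (Finset.sum_le_sum hterm).trans ?_
      rw [Finset.sum_const, nsmul_eq_mul]
      refine mul_le_mul_of_nonneg_right (le_trans ?_ hPb) hD
      exact_mod_cast card_le_card (erase_subset _ _)
  refine (Finset.sum_le_sum e2).trans ?_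
  rw [Finset.sum_add_distrib, ← Finset.mul_sum, Finset.sum_const, nsmul_eq_mul]
  have h6 : 20 * N * ∑ p ∈ P, ((p : ℝ) ^ 2)⁻¹ ≤ 20 * N * (1 / a) :=
    mul_le_mul_of_nonneg_left (sum_inv_sq ha) (by positivity)
  have h7 : (#P : ℝ) * (b * (4 * N / (2 * H + 1))) ≤ b * (b * (4 * N / (2 * H + 1))) :=
    mul_le_mul_of_nonneg_right hPb (by positivity)
  have e : N * (20 / a + 4 * (b : ℝ) ^ 2 / (2 * H + 1)) = 20 * N * (1 / a) + b * (b * (4 * N / (2 * H + 1))) := by
    field_simp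
  rw [e]
  exact add_le_add h6 h7

lemma cheb {ι : Type*} (B : Finset ι) (f : ι → ℝ) {t S : ℝ} (ht : 0 < t) (hS : ∑ c ∈ B, f c ^ 2 ≤ S) :
    (#(B.filter fun c => t < |f c|) : ℝ) ≤ S / t ^ 2 := by
  rw [le_div_iff₀ (by positivity)]
  refine le_trans ?_ hS
  calc (#(B.filter fun c => t < |f c|) : ℝ) * t ^ 2 = ∑ c ∈ B.filter (fun c => t < |f c|), t ^ 2 := by
        rw [Finset.sum_const, nsmul_eq_mul]
    _ ≤ ∑ c ∈ B.filter (fun c => t < |f c|), f c ^ 2 := by
        refine Finset.sum_le_sum fun c hc => ?_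
        rw [mem_filter] at hc
        rw [← sq_abs (f c)]
        exact pow_le_pow_left₀ ht.le hc.2.le 2
    _ ≤ _ := sum_le_sum_of_subset_of_nonneg (filter_subset _ _) fun _ _ _ => sq_nonneg _

lemma W_split {j : ℕ} (c : Fin (j + 1) → ℤ) {a b d : ℕ} (h1 : a ≤ b) (h2 : b ≤ d) :
    W c a d = W c a b + W c b d := by
  unfold W
  rw [← Ioc_union_Ioc_eq_Ioc h1 h2, filter_union, sum_union]
  refine disjoint_filter_filter ?_
  rw [Finset.disjoint_left]
  intro x hx hx'
  rw [mem_Ioc] at hx hx'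
  omega

lemma W_self {j : ℕ} (c : Fin (j + 1) → ℤ) {a b : ℕ} (h1 : b ≤ a) : W c a b = 0 := by
  unfold W
  rw [Ioc_eq_empty (by omega)]
  simp

/-- short sums -/
lemma W_short {j : ℕ} (hj : 1 ≤ j) (c : Fin (j + 1) → ℤ) {a b : ℕ} {s : ℝ} (hs : 0 < s) (hsa : s ≤ a + 1)
    (hr : ∀ p ∈ (Ioc a b).filter Nat.Prime, rt c p ≤ j) (hab : a ≤ b) :
    |W c a b| ≤ j * ((b - a : ℝ) / s) := by
  unfold W
  refine (Finset.abs_sum_le_sum_abs _ _).trans ?_
  have hterm : ∀ p ∈ (Ioc a b).filter Nat.Prime, |((rt c p : ℝ) - 1) / p| ≤ j / s := by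
    intro p hp
    have h1 := hr p hp
    rw [mem_filter, mem_Ioc] at hp
    have hp0 : (0 : ℝ) < p := by exact_mod_cast hp.2.pos
    have h2 : (rt c p : ℝ) ≤ j := by exact_mod_cast h1
    have h3 : (1 : ℝ) ≤ j := by exact_mod_cast hj
    have h4 : (0 : ℝ) ≤ rt c p := Nat.cast_nonneg _
    have h5 : (a : ℝ) + 1 ≤ p := by exact_mod_cast hp.1.1
    rw [abs_div, abs_of_pos hp0]
    have h6 : |(rt c p : ℝ) - 1| ≤ j := by rw [abs_le]; constructor <;> linarith
    exact div_le_div₀ (by linarith) h6 hs (hsa.trans h5)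
  refine (Finset.sum_le_sum hterm).trans ?_
  rw [Finset.sum_const, nsmul_eq_mul]
  have h7 : (#((Ioc a b).filter Nat.Prime) : ℝ) ≤ b - a := by
    have h8 : #((Ioc a b).filter Nat.Prime) ≤ b - a :=
      (card_filter_le _ _).trans (by rw [Nat.card_Ioc])
    have h9 : ((b - a : ℕ) : ℝ) = b - a := Nat.cast_sub hab
    rw [← h9]
    exact_mod_cast h8
  calc (#((Ioc a b).filter Nat.Prime) : ℝ) * (j / s) ≤ (b - a) * (j / s) :=
        mul_le_mul_of_nonneg_right h7 (by positivity)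
    _ = _ := by ring

lemma log_fac {x : ℝ} (_h0 : 0 ≤ x) (h1 : x ≤ 1 / 2) : -x - 2 * x ^ 2 ≤ Real.log (1 - x) ∧ Real.log (1 - x) ≤ -x := by
  constructor
  · have h2 : 0 < 1 - x := by linarith
    have h3 := Real.log_le_sub_one_of_pos (inv_pos.2 h2)
    rw [Real.log_inv] at h3
    have h4 : (1 - x)⁻¹ - 1 ≤ x + 2 * x ^ 2 := by
      rw [sub_le_iff_le_add, inv_le_iff_one_le_mul₀ h2]
      nlinarith [mul_nonneg (sq_nonneg x) (by linarith : 0 ≤ 1 - 2 * x)]
    linarith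
  · have h2 : 0 < 1 - x := by linarith
    have := Real.log_le_sub_one_of_pos h2
    linarith

/-- the factor -/
noncomputable def Fc {j : ℕ} (c : Fin (j + 1) → ℤ) (p : ℕ) : ℝ := (1 - (rt c p : ℝ) / p) / (1 - 1 / (p : ℝ))

lemma Fc_log {j : ℕ} (hj : 1 ≤ j) (c : Fin (j + 1) → ℤ) {p : ℕ} (hp : 2 * j ≤ p) (hr : rt c p ≤ j) :
    0 < Fc c p ∧ |Real.log (Fc c p) + ((rt c p : ℝ) - 1) / p| ≤ 2 * (j : ℝ) ^ 2 * ((p : ℝ) ^ 2)⁻¹ := by
  have hj1 : (1 : ℝ) ≤ j := by exact_mod_cast hj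
  have hp1 : 2 * (j : ℝ) ≤ p := by exact_mod_cast hp
  have hp0 : (0 : ℝ) < p := by linarith
  have hr1 : (rt c p : ℝ) ≤ j := by exact_mod_cast hr
  have hr0 : (0 : ℝ) ≤ rt c p := Nat.cast_nonneg _
  set x : ℝ := (rt c p : ℝ) / p with hx
  set y : ℝ := 1 / (p : ℝ) with hy
  have hx0 : 0 ≤ x := by positivity
  have hy0 : 0 ≤ y := by positivity
  have hx1 : x ≤ 1 / 2 := by rw [hx, div_le_div_iff₀ hp0 (by norm_num)]; linarith
  have hy1 : y ≤ 1 / 2 := by rw [hy, div_le_div_iff₀ hp0 (by norm_num)]; linarith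
  obtain ⟨a1, a2⟩ := log_fac hx0 hx1
  obtain ⟨b1, b2⟩ := log_fac hy0 hy1
  have hxj : x ^ 2 ≤ (j : ℝ) ^ 2 * ((p : ℝ) ^ 2)⁻¹ := by
    rw [← div_eq_mul_inv, ← div_pow]
    exact pow_le_pow_left₀ hx0 (by rw [hx]; gcongr) 2
  have hyj : y ^ 2 ≤ (j : ℝ) ^ 2 * ((p : ℝ) ^ 2)⁻¹ := by
    rw [← div_eq_mul_inv, ← div_pow]
    exact pow_le_pow_left₀ hy0 (by rw [hy]; gcongr) 2
  have p1 : 0 < 1 - x := by linarith
  have p2 : 0 < 1 - y := by linarith
  have hF : Fc c p = (1 - x) / (1 - y) := rfl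
  refine ⟨by rw [hF]; positivity, ?_⟩
  have e : ((rt c p : ℝ) - 1) / p = x - y := by rw [hx, hy]; ring
  rw [hF, Real.log_div p1.ne' p2.ne', e, abs_le]
  constructor <;> nlinarith

lemma PS_split {j : ℕ} (c : Fin (j + 1) → ℤ) {z z' : ℕ} (h : z ≤ z') :
    PS z' c = PS z c * ∏ p ∈ (Ioc z z').filter Nat.Prime, Fc c p := by
  unfold PS Fc
  rw [← prod_union]
  · refine prod_congr ?_ fun _ _ => rfl
    ext p
    simp only [mem_filter, mem_union, mem_Icc, mem_Ioc]
    constructor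
    · rintro ⟨⟨h1, h2⟩, h3⟩
      by_cases hz : p ≤ z
      · exact Or.inl ⟨⟨h1, hz⟩, h3⟩
      · exact Or.inr ⟨⟨by omega, h2⟩, h3⟩
    · rintro (⟨⟨h1, h2⟩, h3⟩ | ⟨⟨h1, h2⟩, h3⟩)
      · exact ⟨⟨h1, by omega⟩, h3⟩
      · exact ⟨⟨by omega, h2⟩, h3⟩
  · refine disjoint_filter_filter ?_
    rw [Finset.disjoint_left]
    intro x hx hx'
    rw [mem_Icc] at hx
    rw [mem_Ioc] at hx'
    omega

lemma PS_nonneg {j : ℕ} (c : Fin (j + 1) → ℤ) (z : ℕ) : 0 ≤ PS z c := by
  unfold PS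
  refine prod_nonneg fun p hp => ?_
  rw [mem_filter] at hp
  have h1 : rt c p ≤ p := by
    unfold rt
    exact (card_filter_le _ _).trans (by rw [card_range])
  have h2 : (rt c p : ℝ) ≤ p := by exact_mod_cast h1
  have h3 : (2 : ℝ) ≤ p := by exact_mod_cast hp.2.two_le
  have h4 : (rt c p : ℝ) / p ≤ 1 := by rw [div_le_one (by linarith)]; exact h2
  have h5 : 1 / (p : ℝ) ≤ 1 := by rw [div_le_one (by linarith)]; linarith
  exact div_nonneg (by linarith) (by linarith)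

theorem stab (h1 : S_COR) (h2 : S_SQ) (h3 : S_DIV) (h4 : S_LE) : S_STAB := by
  intro j hj U
  set V : ℕ := U + 1 with hV
  set E : ℕ := 3 * V + U + 2 with hE
  -- the largeness conditions
  have hlog : Tendsto (fun H : ℕ => Real.log H) atTop atTop :=
    Real.tendsto_log_atTop.comp tendsto_natCast_atTop_atTop
  have hev : ∀ᶠ H : ℕ in atTop, 1 ≤ H ∧ 1000 * (j : ℝ) ^ 2 ≤ Real.log H ∧
      Real.log H ^ E ≤ (H : ℝ) ^ (1 / 3 : ℝ) := by
    have c3 : ∀ᶠ x : ℝ in atTop, Real.log x ^ E ≤ x ^ (1 / 3 : ℝ) := by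
      have := (isLittleO_log_rpow_rpow_atTop (E : ℝ) (by norm_num : (0 : ℝ) < 1 / 3)).bound one_pos
      filter_upwards [this, eventually_ge_atTop 1] with x hx hx1
      have hl : 0 ≤ Real.log x := Real.log_nonneg hx1
      rw [one_mul, Real.norm_eq_abs, Real.norm_eq_abs, Real.rpow_natCast, abs_of_nonneg (by positivity),
        abs_of_nonneg (by positivity)] at hx
      exact hx
    filter_upwards [eventually_ge_atTop 1, hlog.eventually_ge_atTop (1000 * (j : ℝ) ^ 2),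
      tendsto_natCast_atTop_atTop.eventually c3] with H a1 a2 a3
    exact ⟨a1, a2, a3⟩
  obtain ⟨H0, hH0⟩ := eventually_atTop.1 hev
  refine ⟨E, H0, fun H hH => ?_⟩
  obtain ⟨hH1, hL, hLE⟩ := hH0 H hH
  set L := Real.log H with hLdef
  set N : ℝ := (#(box j H) : ℝ) with hN
  have hj1 : (1 : ℝ) ≤ j := by exact_mod_cast hj
  have hjj : (1 : ℝ) ≤ (j : ℝ) ^ 2 := one_le_pow₀ hj1
  have hL1 : 1000 ≤ L := by linarith
  have hL0 : 0 < L := by linarith
  have hN0 : 0 ≤ N := Nat.cast_nonneg _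
  have hHr : (1 : ℝ) ≤ H := by exact_mod_cast hH1
  have hH0r : (0 : ℝ) < H := by linarith
  set T : ℝ := (H : ℝ) ^ (1 / 3 : ℝ) with hT
  have hTexp : T = Real.exp (L / 3) := by
    rw [hT, Real.rpow_def_of_pos hH0r]; congr 1; ring
  have hT1 : 1 ≤ T := by rw [hTexp]; exact Real.one_le_exp (by positivity)
  have hT3 : T ^ 3 = H := by
    rw [hTexp, ← Real.exp_nat_mul]
    have : ((3 : ℕ) : ℝ) * (L / 3) = L := by push_cast; ring
    rw [this, hLdef, Real.exp_log hH0r]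
  have hTH : T ≤ H := by
    rw [← hT3]; nlinarith [mul_nonneg (by linarith : (0 : ℝ) ≤ T) (by nlinarith : 0 ≤ T ^ 2 - 1)]
  have hLV : 1 ≤ L ^ V := one_le_pow₀ (by linarith)
  have hLE1 : 1 ≤ L ^ E := one_le_pow₀ (by linarith)
  have hLVE : L ^ V ≤ L ^ E := pow_le_pow_right₀ (by linarith) (by omega)
  have hLU0 : 0 < L ^ U := by positivity
  -- the parameters
  set z0 : ℕ := ⌈L ^ E⌉₊ with hz0
  have hz0r : L ^ E ≤ z0 := Nat.le_ceil _
  have hz01 : 1 ≤ z0 := by
    have : (1 : ℝ) ≤ z0 := hLE1.trans hz0r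
    exact_mod_cast this
  have hz00 : (0 : ℝ) < z0 := by exact_mod_cast hz01
  set M : ℕ := ⌈L ^ V⌉₊ with hM
  have hMr : L ^ V ≤ M := Nat.le_ceil _
  have hM0 : (0 : ℝ) < M := by linarith
  have hM1 : (1 : ℝ) ≤ M := by linarith
  have hM2 : (M : ℝ) ≤ 2 * L ^ V := by
    have := Nat.ceil_lt_add_one (a := L ^ V) (by positivity)
    linarith
  set K : ℕ := ⌊(M : ℝ) * (L / 3)⌋₊ with hK
  have hK1 : (K : ℝ) ≤ M * (L / 3) := Nat.floor_le (by positivity)
  set Y : ℕ := ⌊T⌋₊ with hY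
  have hYT : (Y : ℝ) ≤ T := Nat.floor_le (by linarith)
  have hYH : Y ≤ H := by
    have : (Y : ℝ) ≤ H := hYT.trans hTH
    exact_mod_cast this
  set g : ℕ → ℕ := fun i => ⌊Real.exp (i / M)⌋₊ with hg
  have hg1 : ∀ i : ℕ, (g i : ℝ) ≤ Real.exp (i / M) := fun i => Nat.floor_le (Real.exp_pos _).le
  have hg2 : ∀ i : ℕ, Real.exp (i / M) ≤ (g i : ℝ) + 1 := fun i => (Nat.lt_floor_add_one _).le
  have hgT : ∀ i : ℕ, i ≤ K → (g i : ℝ) ≤ T := by
    intro i hi
    refine (hg1 i).trans ?_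
    rw [hTexp]
    refine Real.exp_le_exp.2 ?_
    rw [div_le_iff₀ hM0]
    have : (i : ℝ) ≤ K := by exact_mod_cast hi
    linarith
  -- the bad sets
  classical
  set B1 := (box j H).filter (fun c => ∃ p ∈ (Ioc z0 Y).filter Nat.Prime, ∀ i, (p : ℤ) ∣ c i) with hB1
  set B2 : ℕ → Finset (Fin (j + 1) → ℤ) := fun i => (box j H).filter (fun c => 1 / (M : ℝ) < |W c z0 (g i)|) with hB2
  have cB1 : (#B1 : ℝ) ≤ 4 * N / z0 := by
    have hsub : B1 ⊆ ((Ioc z0 Y).filter Nat.Prime).biUnion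
        (fun p => (box j H).filter (fun c => ∀ i, (p : ℤ) ∣ c i)) := by
      intro c hc
      rw [hB1, mem_filter] at hc
      obtain ⟨h5, p, hp, h6⟩ := hc
      rw [mem_biUnion]
      exact ⟨p, hp, mem_filter.2 ⟨h5, h6⟩⟩
    have h5 : (#B1 : ℝ) ≤ ∑ p ∈ (Ioc z0 Y).filter Nat.Prime, (#((box j H).filter (fun c => ∀ i, (p : ℤ) ∣ c i)) : ℝ) := by
      have := (card_le_card hsub).trans card_biUnion_le
      exact_mod_cast this
    refine h5.trans ?_
    have h6 : ∀ p ∈ (Ioc z0 Y).filter Nat.Prime, (#((box j H).filter (fun c => ∀ i, (p : ℤ) ∣ c i)) : ℝ) ≤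
        4 * N * ((p : ℝ) ^ 2)⁻¹ := by
      intro p hp
      rw [mem_filter, mem_Ioc] at hp
      have := h3 j hj H p hp.2 (hp.1.2.trans hYH)
      rw [← div_eq_mul_inv]
      exact this
    refine (sum_le_sum h6).trans ?_
    rw [← mul_sum]
    have h7 := mul_le_mul_of_nonneg_left (sum_inv_sq (b := Y) hz01) (by positivity : 0 ≤ 4 * N)
    refine h7.trans (le_of_eq ?_)
    ring
  have cB2 : ∀ i : ℕ, i ≤ K → (#(B2 i) : ℝ) ≤ N * (22 / L ^ E) * (M : ℝ) ^ 2 := by
    intro i hi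
    have hgi := hgT i hi
    have h5 : g i ≤ H := by
      have : (g i : ℝ) ≤ H := hgi.trans hTH
      exact_mod_cast this
    have h6 := second h1 h2 hj hH1 hz01 h5 (a := z0) (b := g i)
    have h7 := cheb (box j H) (fun c => W c z0 (g i)) (t := 1 / (M : ℝ)) (by positivity) h6
    refine h7.trans ?_
    rw [one_div, inv_pow, div_inv_eq_mul]
    refine mul_le_mul_of_nonneg_right (mul_le_mul_of_nonneg_left ?_ hN0) (by positivity)
    have h8 : (20 : ℝ) / z0 ≤ 20 / L ^ E := div_le_div_of_nonneg_left (by norm_num) (by positivity) hz0r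
    have h9 : 4 * (g i : ℝ) ^ 2 / (2 * H + 1) ≤ 2 / L ^ E := by
      have h10 : (g i : ℝ) ^ 2 ≤ T ^ 2 := pow_le_pow_left₀ (Nat.cast_nonneg _) hgi 2
      rw [div_le_div_iff₀ (by positivity) (by positivity)]
      calc 4 * (g i : ℝ) ^ 2 * L ^ E ≤ 4 * T ^ 2 * T := by gcongr
        _ = 4 * (H : ℝ) := by rw [← hT3]; ring
        _ ≤ 2 * (2 * (H : ℝ) + 1) := by linarith
    calc (20 : ℝ) / z0 + 4 * (g i : ℝ) ^ 2 / (2 * H + 1) ≤ 20 / L ^ E + 2 / L ^ E := add_le_add h8 h9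
      _ = 22 / L ^ E := by ring
  refine ⟨B1 ∪ (range (K + 1)).biUnion B2, ?_, ?_, ?_⟩
  · refine union_subset (filter_subset _ _) ?_
    rw [biUnion_subset]
    intro i _
    exact filter_subset _ _
  · have h5 : (#(B1 ∪ (range (K + 1)).biUnion B2) : ℝ) ≤ #B1 + ∑ i ∈ range (K + 1), (#(B2 i) : ℝ) := by
      have := (card_union_le B1 ((range (K + 1)).biUnion B2)).trans (Nat.add_le_add_left card_biUnion_le _)
      exact_mod_cast this
    have h6 : ∑ i ∈ range (K + 1), (#(B2 i) : ℝ) ≤ (K + 1) * (N * (22 / L ^ E) * (M : ℝ) ^ 2) := by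
      refine (sum_le_sum fun i hi => cB2 i (by rw [mem_range] at hi; omega)).trans (le_of_eq ?_)
      rw [sum_const, card_range, nsmul_eq_mul]
      push_cast
      ring
    have h7 : (K : ℝ) + 1 ≤ L ^ V * L := by
      have : (M : ℝ) * (L / 3) ≤ 2 * L ^ V * (L / 3) := by gcongr
      nlinarith
    have h8 : (M : ℝ) ^ 2 ≤ 4 * (L ^ V * L ^ V) := by
      have := pow_le_pow_left₀ hM0.le hM2 2
      nlinarith
    have h9 : ((K : ℝ) + 1) * (N * (22 / L ^ E) * (M : ℝ) ^ 2) ≤ (L ^ V * L) * (N * (22 / L ^ E) * (4 * (L ^ V * L ^ V))) := by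
      gcongr
    have h10 : L ^ E = (L ^ V * L ^ V * L ^ V) * L ^ U * (L * L) := by
      rw [hE]; ring
    have h11 : (L ^ V * L) * (N * (22 / L ^ E) * (4 * (L ^ V * L ^ V))) = 88 * N / (L ^ U * L) := by
      rw [h10]
      have : L ^ V ≠ 0 := by positivity
      field_simp
      ring
    have h12 : 4 * N / z0 ≤ 4 * N / (L ^ U * L) := by
      refine div_le_div_of_nonneg_left (by positivity) (by positivity) (le_trans ?_ hz0r)
      rw [h10]
      have h13 : 1 ≤ L ^ V * L ^ V * L ^ V := by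
        have := one_le_mul_of_one_le_of_one_le (one_le_mul_of_one_le_of_one_le hLV hLV) hLV
        exact this
      calc L ^ U * L = 1 * L ^ U * (1 * L) := by ring
        _ ≤ (L ^ V * L ^ V * L ^ V) * L ^ U * (L * L) := by
          have : 1 ≤ L := by linarith
          gcongr
    have h14 : 92 * N / (L ^ U * L) ≤ N / L ^ U := by
      rw [div_le_div_iff₀ (by positivity) (by positivity)]
      have : 92 * (N * L ^ U) ≤ L * (N * L ^ U) := by
        have h15 : 0 ≤ N * L ^ U := by positivity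
        nlinarith
      linarith
    have e : 92 * N / (L ^ U * L) = 4 * N / (L ^ U * L) + 88 * N / (L ^ U * L) := by ring
    linarith
  · intro c hc hcB z z' hz hzz' hz'
    rw [mem_union, not_or] at hcB
    obtain ⟨hc1, hc2⟩ := hcB
    have hz0z : z0 ≤ z := Nat.ceil_le.2 hz
    have hz'Y : z' ≤ Y := Nat.le_floor hz'
    have hr : ∀ p, z0 < p → p ≤ Y → p.Prime → rt c p ≤ j := by
      intro p hp1 hp2 hp3
      refine h4 j c p hp3 fun hdiv => hc1 ?_
      rw [hB1, mem_filter]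
      exact ⟨hc, p, mem_filter.2 ⟨mem_Ioc.2 ⟨hp1, hp2⟩, hp3⟩, hdiv⟩
    have hz0M : (M : ℝ) ≤ 2 * z0 := by
      have := hLVE.trans hz0r
      linarith
    -- partial sums
    have hW : ∀ n, z0 ≤ n → n ≤ Y → |W c z0 n| ≤ 9 * j / M := by
      intro n hn1 hn2
      have hn0 : (0 : ℝ) < n := by exact_mod_cast (hz01.trans hn1)
      have hnT : (n : ℝ) ≤ T := by
        have : (n : ℝ) ≤ Y := by exact_mod_cast hn2
        linarith
      have hn1' : (1 : ℝ) ≤ n := by exact_mod_cast (hz01.trans hn1)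
      have hlogn : 0 ≤ Real.log n := Real.log_nonneg hn1'
      set i : ℕ := ⌊(M : ℝ) * Real.log n⌋₊ with hi
      have hi1 : (i : ℝ) ≤ M * Real.log n := Nat.floor_le (by positivity)
      have hi2 : (M : ℝ) * Real.log n < i + 1 := Nat.lt_floor_add_one _
      have hlogT : Real.log n ≤ L / 3 := by
        have := Real.log_le_log hn0 hnT
        rwa [hTexp, Real.log_exp] at this
      have hiK : i ≤ K := Nat.floor_le_floor (by gcongr)
      have e1 : Real.exp (i / M) ≤ n := by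
        rw [← Real.exp_log hn0]
        refine Real.exp_le_exp.2 ?_
        rw [div_le_iff₀ hM0]; linarith
      have e2 : (n : ℝ) ≤ Real.exp (1 / M) * Real.exp (i / M) := by
        rw [← Real.exp_add]
        nth_rewrite 1 [← Real.exp_log hn0]
        refine Real.exp_le_exp.2 ?_
        rw [← add_div, le_div_iff₀ hM0]; linarith
      have hgn : g i ≤ n := by
        have : (g i : ℝ) ≤ n := (hg1 i).trans e1
        exact_mod_cast this
      have hm : z0 ≤ max z0 (g i) := le_max_left _ _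
      have hm2 : max z0 (g i) ≤ n := max_le hn1 hgn
      have hWi : |W c z0 (g i)| ≤ 1 / M := by
        by_contra hcon
        rw [not_le] at hcon
        apply hc2
        rw [mem_biUnion]
        exact ⟨i, mem_range.2 (by omega), mem_filter.2 ⟨hc, hcon⟩⟩
      have hWm : W c z0 (max z0 (g i)) = W c z0 (g i) := by
        rcases le_total z0 (g i) with h5 | h5
        · rw [max_eq_right h5]
        · rw [max_eq_left h5, W_self c le_rfl, W_self c h5]
      rw [W_split c hm hm2, hWm]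
      refine (abs_add_le _ _).trans ?_
      have hsh := W_short hj c (a := max z0 (g i)) (b := n) (s := Real.exp (i / M)) (Real.exp_pos _) (by
        have h5 : (g i : ℝ) ≤ ((max z0 (g i) : ℕ) : ℝ) := by exact_mod_cast le_max_right z0 (g i)
        linarith [hg2 i]) (by
        intro p hp
        rw [mem_filter, mem_Ioc] at hp
        exact hr p (lt_of_le_of_lt hm hp.1.1) (hp.1.2.trans hn2) hp.2) hm2
      have h6 : ((n : ℝ) - ((max z0 (g i) : ℕ) : ℝ)) / Real.exp (i / M) ≤ 8 / M := by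
        have h7 : (g i : ℝ) ≤ ((max z0 (g i) : ℕ) : ℝ) := by exact_mod_cast le_max_right z0 (g i)
        have h8 := hg2 i
        have h9 : Real.exp (1 / M) ≤ 1 + 2 / M := by
          have h10 : |1 / (M : ℝ)| ≤ 1 := by
            rw [abs_of_pos (by positivity), div_le_one hM0]; exact hM1
          have h11 := (abs_le.1 (Real.abs_exp_sub_one_le h10)).2
          rw [abs_of_pos (by positivity)] at h11
          have : 2 * (1 / (M : ℝ)) = 2 / M := by ring
          linarith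
        have h12 : Real.exp (1 / M) ≤ 3 := by
          have : 2 / (M : ℝ) ≤ 2 := by rw [div_le_iff₀ hM0]; linarith
          linarith
        have h13 : (z0 : ℝ) ≤ n := by exact_mod_cast hn1
        have h14 : (M : ℝ) ≤ 6 * Real.exp (i / M) := by
          have : (n : ℝ) ≤ 3 * Real.exp (i / M) := e2.trans (by gcongr)
          linarith
        rw [div_le_iff₀ (Real.exp_pos _)]
        have h15 : (n : ℝ) ≤ Real.exp (i / M) + 2 / M * Real.exp (i / M) := by
          refine e2.trans ?_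
          have := mul_le_mul_of_nonneg_right h9 (Real.exp_pos ((i : ℝ) / M)).le
          linarith
        have h16 : 1 ≤ 6 / M * Real.exp (i / M) := by
          rw [div_mul_eq_mul_div, le_div_iff₀ hM0]; linarith
        have e : 8 / (M : ℝ) * Real.exp (i / M) = 2 / M * Real.exp (i / M) + 6 / M * Real.exp (i / M) := by ring
        linarith
      have h17 : (j : ℝ) * (((n : ℝ) - ((max z0 (g i) : ℕ) : ℝ)) / Real.exp (i / M)) ≤ j * (8 / M) :=
        mul_le_mul_of_nonneg_left h6 (by linarith)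
      have h18 : 1 / (M : ℝ) ≤ j / M := by gcongr
      have e : 9 * (j : ℝ) / M = j / M + j * (8 / M) := by ring
      rw [e]
      linarith
    have hz1 := hW z hz0z (hzz'.trans hz'Y)
    have hz2 := hW z' (hz0z.trans hzz') hz'Y
    have hsp := W_split c hz0z hzz'
    have hWz : |W c z z'| ≤ 18 * j / M := by
      have e : W c z z' = W c z0 z' - W c z0 z := by linarith
      rw [e]
      refine (abs_sub _ _).trans ?_
      have e3 : 18 * (j : ℝ) / M = 9 * j / M + 9 * j / M := by ring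
      rw [e3]
      linarith
    -- the product
    rw [PS_split c hzz']
    set Q := ∏ p ∈ (Ioc z z').filter Nat.Prime, Fc c p with hQ
    have hjz : 2 * j ≤ z0 := by
      have h5 : (2 * j : ℝ) ≤ z0 := by
        have h6 : L ≤ L ^ V := by
          calc L = L ^ 1 := (pow_one L).symm
            _ ≤ L ^ V := pow_le_pow_right₀ (by linarith) (by omega)
        nlinarith
      exact_mod_cast h5
    have hfac : ∀ p ∈ (Ioc z z').filter Nat.Prime, 0 < Fc c p ∧
        |Real.log (Fc c p) + ((rt c p : ℝ) - 1) / p| ≤ 2 * (j : ℝ) ^ 2 * ((p : ℝ) ^ 2)⁻¹ := by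
      intro p hp
      rw [mem_filter, mem_Ioc] at hp
      exact Fc_log hj c (by omega) (hr p (by omega) (by omega) hp.2)
    have hQ0 : 0 < Q := prod_pos fun p hp => (hfac p hp).1
    have hlogQ : |Real.log Q| ≤ 1 / 2 * (1 / L ^ U) := by
      have h5 : Real.log Q = ∑ p ∈ (Ioc z z').filter Nat.Prime, Real.log (Fc c p) :=
        Real.log_prod fun p hp => (hfac p hp).1.ne'
      have h6 : Real.log Q = (∑ p ∈ (Ioc z z').filter Nat.Prime, (Real.log (Fc c p) + ((rt c p : ℝ) - 1) / p)) - W c z z' := by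
        rw [h5, sum_add_distrib]
        unfold W
        ring
      have h7 : |∑ p ∈ (Ioc z z').filter Nat.Prime, (Real.log (Fc c p) + ((rt c p : ℝ) - 1) / p)| ≤ 2 * (j : ℝ) ^ 2 / z0 := by
        refine (Finset.abs_sum_le_sum_abs _ _).trans ((sum_le_sum fun p hp => (hfac p hp).2).trans ?_)
        rw [← mul_sum]
        have h8 := mul_le_mul_of_nonneg_left (sum_inv_sq (a := z) (b := z') (hz01.trans hz0z)) (by positivity : 0 ≤ 2 * (j : ℝ) ^ 2)
        refine h8.trans ?_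
        rw [mul_one_div]
        refine div_le_div_of_nonneg_left (by positivity) hz00 ?_
        exact_mod_cast hz0z
      have h9 : |Real.log Q| ≤ 2 * (j : ℝ) ^ 2 / z0 + 18 * j / M := by
        rw [h6]
        exact (abs_sub _ _).trans (add_le_add h7 hWz)
      have h10 : 2 * (j : ℝ) ^ 2 / z0 ≤ 2 * (j : ℝ) ^ 2 / L ^ V :=
        div_le_div_of_nonneg_left (by positivity) (by positivity) (hLVE.trans hz0r)
      have h11 : 18 * (j : ℝ) / M ≤ 18 * (j : ℝ) ^ 2 / L ^ V := by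
        refine div_le_div₀ (by positivity) ?_ (by positivity) hMr
        nlinarith
      have h12 : 20 * (j : ℝ) ^ 2 / L ^ V ≤ 1 / 2 * (1 / L ^ U) := by
        rw [hV, pow_succ, one_div_mul_one_div, div_le_div_iff₀ (by positivity) (by positivity)]
        have h13 : 40 * (j : ℝ) ^ 2 * L ^ U ≤ L * L ^ U := mul_le_mul_of_nonneg_right (by linarith) hLU0.le
        calc 20 * (j : ℝ) ^ 2 * (2 * L ^ U) = 40 * (j : ℝ) ^ 2 * L ^ U := by ring
          _ ≤ L * L ^ U := h13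
          _ = 1 * (L ^ U * L) := by ring
      have e : 20 * (j : ℝ) ^ 2 / L ^ V = 2 * (j : ℝ) ^ 2 / L ^ V + 18 * (j : ℝ) ^ 2 / L ^ V := by ring
      linarith
    have hQ1 : |Q - 1| ≤ 1 / L ^ U := by
      have h5 : 1 / L ^ U ≤ 1 := by
        rw [div_le_one hLU0]
        exact one_le_pow₀ (by linarith)
      have h6 := Real.abs_exp_sub_one_le (x := Real.log Q) (by linarith)
      rw [Real.exp_log hQ0] at h6
      linarith
    have e : PS z c * Q - PS z c = PS z c * (Q - 1) := by ring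
    rw [e, abs_mul, abs_of_nonneg (PS_nonneg c z)]
    calc PS z c * |Q - 1| ≤ PS z c * (1 / L ^ U) := mul_le_mul_of_nonneg_left hQ1 (PS_nonneg c z)
      _ = _ := by ring

end Pool.Agent.Q210.BX
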